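import Pool.Agent.Helper21.BN.Spec

/-!
MP_35885f_co, parts Q, DIM1, DIM2, M5.
-/

set_option linter.unusedSectionVars false

namespace BN

section
variable {V E : Type} [Fintype V] [DecidableEq V] [Fintype E] [DecidableEq E]

/-- the boundary as a linear map -/
def bdL (d : E → V → ZMod 2) : (E → ZMod 2) →ₗ[ZMod 2] (V → ZMod 2) where
  toFun z := bd d z
  map_add' a b := by
    funext v
    simp only [bd, Pi.add_apply, add_mul, Finset.sum_add_distrib]
  map_smul' c a := by
    funext v
    simp only [bd, Pi.smul_apply, smul_eq_mul, RingHom.id_apply, mul_assoc, Finset.mul_sum]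

@[simp] theorem bdL_apply (d : E → V → ZMod 2) (z : E → ZMod 2) : bdL d z = bd d z := rfl

theorem bd_add (d : E → V → ZMod 2) (a b : E → ZMod 2) : bd d (a + b) = bd d a + bd d b :=
  (bdL d).map_add a b

theorem bd_single (d : E → V → ZMod 2) (e : E) : bd d (Pi.single e 1) = d e := by
  funext v
  unfold bd
  rw [Finset.sum_eq_single e]
  · simp
  · intro b _ hb
    simp [Pi.single_eq_of_ne hb]
  · intro h
    exact absurd (Finset.mem_univ e) h

theorem add_self_fun {α : Type} (f : α → ZMod 2) : f + f = 0 := by
  funext a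
  exact CharTwo.add_self_eq_zero (f a)

theorem res_apply (F : Finset E) (z : E → ZMod 2) (e : E) :
    res F z e = if e ∈ F then z e else 0 := rfl

/-- class sum of a boundary -/
theorem classSum_bd (d : E → V → ZMod 2) (π : V → V) (y : E → ZMod 2) (w : V) :
    ∑ v ∈ Finset.univ.filter (fun v => π v = w), bd d y v =
      bd (fun e w => ∑ v ∈ Finset.univ.filter (fun v => π v = w), d e v) y w := by
  unfold bd
  rw [Finset.sum_comm]
  refine Finset.sum_congr rfl fun e _ => ?_
  rw [Finset.mul_sum]

theorem classSum_link (π : V → V) (a b w : V) :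
    ∑ v ∈ Finset.univ.filter (fun v => π v = w),
      ((Pi.single a 1 + Pi.single b 1 : V → ZMod 2) v) =
      (Pi.single (π a) 1 + Pi.single (π b) 1 : V → ZMod 2) w := by
  simp only [Pi.add_apply, Finset.sum_add_distrib]
  congr 1
  · rw [Finset.sum_filter]
    rw [Finset.sum_eq_single a]
    · simp [Pi.single_apply, eq_comm]
    · intro v _ hv
      simp [Pi.single_eq_of_ne hv]
    · intro h
      exact absurd (Finset.mem_univ a) h
  · rw [Finset.sum_filter]
    rw [Finset.sum_eq_single b]
    · simp [Pi.single_apply, eq_comm]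
    · intro v _ hv
      simp [Pi.single_eq_of_ne hv]
    · intro h
      exact absurd (Finset.mem_univ b) h

end

theorem q_thm : S_Q := by
  intro V E _ _ _ _ d X hlink
  classical
  let R : V → V → Prop := fun u v => ∃ x : E → ZMod 2, (∀ e, e ∉ X → x e = 0) ∧
    bd d x = Pi.single u 1 + Pi.single v 1
  have hrefl : ∀ u, R u u := fun u => ⟨0, fun _ _ => rfl, by
    rw [add_self_fun]; exact (bdL d).map_zero⟩
  have hsymm : ∀ {u v}, R u v → R v u := by
    rintro u v ⟨x, hx, hb⟩
    exact ⟨x, hx, by rw [hb, add_comm]⟩
  have htrans : ∀ {u v w}, R u v → R v w → R u w := by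
    rintro u v w ⟨x, hx, hb⟩ ⟨y, hy, hc⟩
    refine ⟨x + y, fun e he => by simp [hx e he, hy e he], ?_⟩
    rw [bd_add, hb, hc]
    have := add_self_fun (Pi.single v 1 : V → ZMod 2)
    calc (Pi.single u 1 + Pi.single v 1 + (Pi.single v 1 + Pi.single w 1) : V → ZMod 2)
        = Pi.single u 1 + (Pi.single v 1 + Pi.single v 1) + Pi.single w 1 := by abel
      _ = _ := by rw [this]; simp
  let s : Setoid V := ⟨R, hrefl, hsymm, htrans⟩
  let π : V → V := fun v => (Quotient.mk s v).out
  have hπ : ∀ v, R v (π v) := fun v => hsymm (Quotient.mk_out (s := s) v)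
  have hπeq : ∀ u v, R u v → π u = π v := fun u v h => by
    have : Quotient.mk s u = Quotient.mk s v := Quotient.sound h
    show (Quotient.mk s u).out = (Quotient.mk s v).out
    rw [this]
  refine ⟨π, fun f => ⟨?_, ?_⟩⟩
  · rintro ⟨x, hx, rfl⟩ w
    rw [classSum_bd]
    unfold bd
    refine Finset.sum_eq_zero fun e _ => ?_
    by_cases he : e ∈ X
    · obtain ⟨a, b, hab⟩ := hlink e he
      show x e * (∑ v ∈ Finset.univ.filter (fun v => π v = w), d e v) = 0
      rw [hab, classSum_link]
      have hR : R a b := by
        refine ⟨Pi.single e 1, fun e' he' => ?_, ?_⟩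
        · rw [Pi.single_eq_of_ne]
          rintro rfl
          exact he' he
        · rw [bd_single, hab]
      rw [hπeq a b hR, add_self_fun]
      simp
    · rw [hx e he, zero_mul]
  · intro hf
    choose x hx hb using hπ
    refine ⟨∑ v, f v • x v, fun e he => ?_, ?_⟩
    · rw [Finset.sum_apply]
      refine Finset.sum_eq_zero fun v _ => ?_
      simp [hx v e he]
    · have h1 : bd d (∑ v, f v • x v) = ∑ v, f v • bd d (x v) := by
        have := map_sum (bdL d) (fun v => f v • x v) Finset.univ
        simpa only [bdL_apply, map_smul] using this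
      rw [h1]
      simp only [hb, smul_add, Finset.sum_add_distrib]
      have h2 : ∑ v, f v • (Pi.single v 1 : V → ZMod 2) = f := by
        funext w
        rw [Finset.sum_apply, Finset.sum_eq_single w]
        · simp
        · intro v _ hv
          simp [Pi.single_eq_of_ne (Ne.symm hv)]
        · intro h
          exact absurd (Finset.mem_univ w) h
      have h3 : ∑ v, f v • (Pi.single (π v) 1 : V → ZMod 2) = 0 := by
        funext w
        rw [Finset.sum_apply, Pi.zero_apply, ← hf w, Finset.sum_filter]
        refine Finset.sum_congr rfl fun v _ => ?_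
        by_cases h : π v = w
        · simp [h]
        · simp [h]
      rw [h2, h3, add_zero]

theorem finrank_fun_le {M : Type} [AddCommGroup M] [Module (ZMod 2) M] [Module.Finite (ZMod 2) M]
    {V : Type} (B : Finset V) (φ : M →ₗ[ZMod 2] (B → ZMod 2)) :
    Module.finrank (ZMod 2) M ≤ Module.finrank (ZMod 2) (LinearMap.ker φ) + B.card := by
  have h1 := LinearMap.finrank_range_add_finrank_ker φ
  have h2 : Module.finrank (ZMod 2) (LinearMap.range φ) ≤ B.card := by
    refine (Submodule.finrank_le _).trans ?_
    rw [Module.finrank_fintype_fun_eq_card, Fintype.card_coe]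
  omega

theorem dim1_thm : S_DIM1 := by
  intro V E _ _ _ _ d F P B hdis hB
  classical
  let φ : cyc d (F ∪ P) →ₗ[ZMod 2] (B → ZMod 2) :=
    { toFun := fun z v => bd d (res F z.1) v
      map_add' := fun a b => by
        funext v
        show bdL d (res F (a.1 + b.1)) v = bdL d (res F a.1) v + bdL d (res F b.1) v
        rw [map_add, map_add]; rfl
      map_smul' := fun c a => by
        funext v
        show bdL d (res F (c • a.1)) v = c • bdL d (res F a.1) v
        rw [map_smul, map_smul]; rfl }
  have h1 := finrank_fun_le B φ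
  have hsplit : ∀ z ∈ cyc d (F ∪ P), z = res F z + res P z := by
    intro z hz
    funext e
    simp only [Pi.add_apply, res_apply]
    by_cases h : e ∈ F
    · have : e ∉ P := fun h' => Finset.disjoint_left.1 hdis h h'
      simp [h, this]
    · by_cases h' : e ∈ P
      · simp [h, h']
      · have := hz.1 e (by simp [h, h'])
        simp [h, h', this]
  have hF : ∀ z : LinearMap.ker φ, res F z.1.1 ∈ cyc d F := by
    intro z
    refine ⟨fun e he => by simp [res_apply, he], fun v => ?_⟩
    by_cases hv : v ∈ B
    · have := z.2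
      rw [LinearMap.mem_ker] at this
      exact congrFun this ⟨v, hv⟩
    · rcases hB v hv with h | h
      · unfold bd
        refine Finset.sum_eq_zero fun e _ => ?_
        by_cases he : e ∈ F
        · rw [h e he, mul_zero]
        · simp [res_apply, he]
      · have h2 : bd d z.1.1 v = bd d (res F z.1.1) v + bd d (res P z.1.1) v := by
          conv_lhs => rw [hsplit _ z.1.2]
          rw [bd_add]; rfl
        have h3 : bd d (res P z.1.1) v = 0 := by
          unfold bd
          refine Finset.sum_eq_zero fun e _ => ?_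
          by_cases he : e ∈ P
          · rw [h e he, mul_zero]
          · simp [res_apply, he]
        rw [h3, add_zero, z.1.2.2 v] at h2
        exact h2.symm
  have hP : ∀ z : LinearMap.ker φ, res P z.1.1 ∈ cyc d P := by
    intro z
    refine ⟨fun e he => by simp [res_apply, he], fun v => ?_⟩
    have h2 : bd d z.1.1 v = bd d (res F z.1.1) v + bd d (res P z.1.1) v := by
      conv_lhs => rw [hsplit _ z.1.2]
      rw [bd_add]; rfl
    rw [z.1.2.2 v, (hF z).2 v, zero_add] at h2
    exact h2.symm
  let ψ : LinearMap.ker φ →ₗ[ZMod 2] (cyc d F × cyc d P) :=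
    { toFun := fun z => (⟨res F z.1.1, hF z⟩, ⟨res P z.1.1, hP z⟩)
      map_add' := fun a b => by
        ext e <;> simp [map_add]
      map_smul' := fun c a => by
        ext e <;> simp [map_smul] }
  have hinj : Function.Injective ψ := by
    intro a b hab
    have e1 : res F a.1.1 = res F b.1.1 := congrArg (fun x => x.1.1) hab
    have e2 : res P a.1.1 = res P b.1.1 := congrArg (fun x => x.2.1) hab
    apply Subtype.ext
    apply Subtype.ext
    rw [hsplit _ a.1.2, hsplit _ b.1.2, e1, e2]
  have h4 := LinearMap.finrank_le_finrank_of_injective hinj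
  rw [Module.finrank_prod] at h4
  omega

theorem dim2_thm : S_DIM2 := by
  intro V E _ _ _ _ d X F B hFX hB
  classical
  let φ : (cyc d X).map (res F) →ₗ[ZMod 2] (B → ZMod 2) :=
    { toFun := fun z v => bd d z.1 v
      map_add' := fun a b => by
        funext v
        show bdL d (a.1 + b.1) v = bdL d a.1 v + bdL d b.1 v
        rw [map_add]; rfl
      map_smul' := fun c a => by
        funext v
        show bdL d (c • a.1) v = c • bdL d a.1 v
        rw [map_smul]; rfl }
  have h1 := finrank_fun_le B φ
  have hF : ∀ z : LinearMap.ker φ, z.1.1 ∈ cyc d F := by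
    intro z
    obtain ⟨y, hy, hyz⟩ := z.1.2
    refine ⟨fun e he => by rw [← hyz]; simp [res_apply, he], fun v => ?_⟩
    by_cases hv : v ∈ B
    · have := z.2
      rw [LinearMap.mem_ker] at this
      exact congrFun this ⟨v, hv⟩
    · rw [← hyz]
      rcases hB v hv with h | h
      · unfold bd
        refine Finset.sum_eq_zero fun e _ => ?_
        by_cases he : e ∈ F
        · rw [h e he, mul_zero]
        · simp [res_apply, he]
      · rw [← hy.2 v]
        unfold bd
        refine Finset.sum_congr rfl fun e _ => ?_
        by_cases he : e ∈ F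
        · simp [res_apply, he]
        · by_cases heX : e ∈ X
          · rw [h e heX he, mul_zero, mul_zero]
          · simp [res_apply, he, hy.1 e heX]
  let ψ : LinearMap.ker φ →ₗ[ZMod 2] (cyc d F) :=
    { toFun := fun z => ⟨z.1.1, hF z⟩
      map_add' := fun a b => rfl
      map_smul' := fun c a => rfl }
  have hinj : Function.Injective ψ := by
    intro a b hab
    have e1 : a.1.1 = b.1.1 := congrArg (fun x => x.1) hab
    exact Subtype.ext (Subtype.ext e1)
  have h4 := LinearMap.finrank_le_finrank_of_injective hinj
  omega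

theorem m5_thm (hQ : S_Q) (hC : S_C3) (hGL : S_GL) : S_M5 := by
  intro V E _ _ _ _ d X F J hlink hFX hc hD hJ
  classical
  obtain ⟨K, hKF, hK, hKc⟩ := hC V E d X F hlink hFX
  obtain ⟨π, hπ⟩ := hQ V E d (F \ K) (fun e he => hlink e (hFX (Finset.mem_sdiff.1 he).1))
  set c := Module.finrank (ZMod 2) (cyc d F) with hcdef
  set d' : E → V → ZMod 2 := fun e w => ∑ v ∈ Finset.univ.filter (fun v => π v = w), d e v with hd'
  have hlink' : ∀ e ∈ K, IsLink (d' e) := by
    intro e he
    obtain ⟨a, b, hab⟩ := hlink e (hFX (hKF he))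
    refine ⟨π a, π b, ?_⟩
    funext w
    rw [← classSum_link π a b w]
    simp only [hd', hab]
  have hFX' : ∀ z ∈ cyc d F, z ∈ cyc d X := fun z hz =>
    ⟨fun e he => hz.1 e (fun h => he (hFX h)), hz.2⟩
  have hres : ∀ z ∈ cyc d F, res K z ∈ cyc d' K := by
    intro z hz
    refine ⟨fun e he => by simp [res_apply, he], fun w => ?_⟩
    rw [hd', ← classSum_bd]
    have e1 : res K z = z + res (F \ K) z := by
      funext e
      simp only [Pi.add_apply, res_apply, Finset.mem_sdiff]
      by_cases h1 : e ∈ K
      · simp [h1]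
      · by_cases h2 : e ∈ F
        · simp [h1, h2, CharTwo.add_self_eq_zero]
        · simp [h1, h2, hz.1 e h2]
    have e2 : bd d (res K z) = bd d (res (F \ K) z) := by
      rw [e1, bd_add]
      funext v
      simp [hz.2 v]
    rw [e2]
    exact (hπ _).1 ⟨res (F \ K) z, fun e he => by rw [res_apply, if_neg he], rfl⟩ w
  let ψ : cyc d F →ₗ[ZMod 2] cyc d' K :=
    { toFun := fun z => ⟨res K z.1, hres z.1 z.2⟩
      map_add' := fun a b => by
        ext e; simp [map_add]
      map_smul' := fun c a => by
        ext e; simp [map_smul] }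
  have hinj : Function.Injective ψ := by
    rw [← LinearMap.ker_eq_bot, LinearMap.ker_eq_bot']
    intro z hz
    have e1 : res K z.1 = 0 := congrArg Subtype.val hz
    apply Subtype.ext
    funext e
    by_cases he : e ∈ F
    · rcases hK e he with h | ⟨e', he', h⟩
      · exact h z.1 (hFX' _ z.2)
      · rw [h z.1 (hFX' _ z.2)]
        have := congrFun e1 e'
        rw [res_apply, if_pos he'] at this
        exact this
    · exact z.2.1 e he
  have hdim : c ≤ Module.finrank (ZMod 2) (cyc d' K) :=
    LinearMap.finrank_le_finrank_of_injective hinj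
  have hK6 : K.card ≤ 6 * c := by omega
  have hKne : K.Nonempty := by
    by_contra hne
    rw [Finset.not_nonempty_iff_eq_empty] at hne
    have hbot : cyc d' K = ⊥ := by
      rw [eq_bot_iff]
      intro z hz
      rw [Submodule.mem_bot]
      funext e
      exact hz.1 e (by simp [hne])
    rw [hbot, finrank_bot] at hdim
    omega
  obtain ⟨y, hy, hy0, hycard⟩ := hGL V E d' K J hlink' hKne (by omega) (by
    refine lt_of_le_of_lt ?_ hJ
    exact Nat.mul_le_mul_right _ (by omega))
  obtain ⟨x, hx, hxy⟩ := (hπ (bd d y)).2 (fun w => by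
    rw [classSum_bd]; exact hy.2 w)
  have hz : y + x ∈ cyc d F := by
    refine ⟨fun e he => ?_, fun v => ?_⟩
    · have h1 : e ∉ K := fun h => he (hKF h)
      have h2 : e ∉ F \ K := fun h => he (Finset.mem_sdiff.1 h).1
      simp [hy.1 e h1, hx e h2]
    · rw [bd_add, hxy, add_self_fun]; rfl
  have hxK : ∀ e ∈ K, (y + x) e = y e := fun e he => by
    have : x e = 0 := hx e (fun h => (Finset.mem_sdiff.1 h).2 he)
    simp [this]
  refine ⟨y + x, hFX' _ hz, ?_, Finset.univ.filter (fun e => y e ≠ 0), hycard, ?_⟩
  · intro h0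
    apply hy0
    funext e
    by_cases he : e ∈ K
    · rw [← hxK e he, h0]
    · exact hy.1 e he
  · intro e he
    have heF : e ∈ F := by
      by_contra h
      exact he (hz.1 e h)
    rcases hK e heF with h | ⟨e', he', h⟩
    · exact absurd (h _ (hFX' _ hz)) he
    · refine ⟨e', ?_, h⟩
      rw [Finset.mem_filter]
      refine ⟨Finset.mem_univ _, ?_⟩
      rw [← hxK e' he', ← h _ (hFX' _ hz)]
      exact he

end BN
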